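import Pool.Agent.Work.MP_369e59_al.AbMemD

/-!
# Laws with linear part in a cyclic group of operators

Setting of the problem: `Ω` is an arbitrary group, `W` a set of Ω-words (elements of the free group
on the symbols `x^ω = (x, ω)`), `proj Ω '' W` is the set of group words obtained by replacing all
operators by the identity, `RelFree (proj Ω '' W)` is the countably generated free group of the
variety of groups which these words define, and `AssocLie` is the associated Lie ring.

Hypothesis (H) is `hU` and `hf`: the associated Lie ring satisfies the multilinear identities `U`,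
and every `d`-generator Lie ring satisfying `U` has nilpotency class at most `f d`.

`G` is an Ω-group in `𝔙_W` such that `G ⋊ Ω` is locally nilpotent, and `A` is an Ω-invariant normal
subgroup of `G`, nilpotent of class at most `c₀` or soluble of derived length at most `ℓ` with
`solBound (f 2) ℓ ≤ c₀` (for instance `A = 1` and `c₀ = 0`).

The linear part `linPart j w` of an Ω-word `w` with respect to the variable `x_j` is the element of
the group ring `ℤ[Ω]` which is the sum of `± ω` over the letters `x_j ^ ω` with exponent `± 1`.

Let `t` be an element of `Ω` such that every Ω-orbit on `G / A` is contained in the union of at most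
`n` orbits of `⟨t⟩` (`OrbitCover`; for `Ω = ⟨t⟩` one can take `n = 1`). Suppose that for every prime
`p` there is a word in `W` with a linear part `t ^ k * q(t)` where `q` is an integral polynomial
which modulo `p` is not divisible by `(X - 1) ^ (s p + 1)` (`LinLaw`; all these words have their
operators in one finitely generated subgroup), with bounded numbers `s p`. We prove: `G` lies in a
locally nilpotent variety of groups in which every `d`-generator group has class at most `g d`,
where `g d` is any number which is at least `f (d * (n * s p) + c₀)` for all primes `p`.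
-/

namespace Pool.Agent.Results.MP_369e59_al.CyclicOperators

open Pool.Agent.Work.MP_369e59_al

/-- Laws with linear part in a cyclic group of operators. Here `lowerCentralSeries ⊤ c = ⊥` says
that the group is nilpotent of class at most `c`. -/
theorem result.{w, u, v} (Ω : Type w) [Group Ω] (G : Type u) [Group G] [MulDistribMulAction Ω G]
    (W : Set (FreeGroup (ℕ × Ω))) (hG : InVO W G)
    (U : Set MultId) (hU : Sat U (AssocLie (RelFree (proj Ω '' W))))
    (f : ℕ → ℕ) (hf : ClassBound.{0} U f)
    (hLN : LocNilp (G ⋊[MulDistribMulAction.toMulAut Ω G] Ω))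
    (A : Subgroup G) (hAn : A.Normal) (hAΩ : ∀ ω : Ω, ∀ x ∈ A, ω • x ∈ A) (c₀ : ℕ)
    (hA : (⊤ : Subgroup A).lowerCentralSeries c₀ = ⊥ ∨
      ∃ ℓ, derivedSeries A ℓ = ⊥ ∧ solBound (f 2) ℓ ≤ c₀)
    (t : Ω) (n : ℕ) (hcov : OrbitCover t n A)
    (s : ℕ → ℕ) (M : ℕ) (hM : ∀ p : ℕ, p.Prime → s p ≤ M) (hlin : LinLaw W t s)
    (g : ℕ → ℕ) (hg : ∀ d p : ℕ, p.Prime → f (d * (n * s p) + c₀) ≤ g d) :
    ∃ V : Set (FreeGroup ℕ), InV V G ∧
      ∀ (H : Type v) [Group H], InV V H → ∀ (d : ℕ) (h : Fin d → H),
        Subgroup.closure (Set.range h) = ⊤ →
          (⊤ : Subgroup H).lowerCentralSeries (g d) = ⊥ := by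
  classical
  refine ⟨{w : FreeGroup ℕ | ∀ θ : ℕ → G, FreeGroup.lift θ w = 1}, fun w hw θ => hw θ, ?_⟩
  intro H _ hH d h hh
  refine variety (G := G) g ?_ hH d h hh
  intro d x
  let S : Finset G := Finset.univ.image x
  have hS : (S : Set G) = Set.range x := by simp [S]
  rw [← hS]
  exact thmE hG (fun u hu => generic_of_sat hU u hu) hf hLN A (c0 := c₀) (nilSol_of A hA) S
    (M := d * (n * M)) (fun p => d * (n * s p))
    (fun p hp => Nat.mul_le_mul_left d (Nat.mul_le_mul_left n (hM p hp)))
    (fun p hp => hg d p hp)
    (fun T₀ => rank_of_rankBound hLN A (rankBound_of_lin hG hLN A hAΩ hcov hlin) x S hS T₀)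

end Pool.Agent.Results.MP_369e59_al.CyclicOperators
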