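import Pool.Agent.Work.MP_369e59_al.ThmD

/-!
# Invariant subgroups of operator groups

Setting of the problem: `Ω` is an arbitrary group, `W` a set of Ω-words (elements of the free group
on the symbols `x^ω = (x, ω)`), `proj Ω '' W` is the set of group words obtained by replacing all
operators by the identity, `RelFree (proj Ω '' W)` is the countably generated free group of the
variety of groups which these words define, and `AssocLie` is the associated Lie ring.

Hypothesis (H) is `hU` and `hf`: the associated Lie ring satisfies the multilinear identities `U`,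
and every `d`-generator Lie ring satisfying `U` has nilpotency class at most `f d`.

`G` is an Ω-group in `𝔙_W` such that `G ⋊ Ω` is locally nilpotent. We prove: if `K` is an
Ω-invariant subgroup of `G` and `A` is a normal subgroup of `K` such that `K / A` is generated by
`r` elements, and `A` is nilpotent of class at most `c₀`, or soluble of derived length at most `ℓ`
with `solBound (f 2) ℓ ≤ c₀`, then `K` is nilpotent of class at most `f (r + c₀)`.
-/

namespace Pool.Agent.Results.MP_369e59_al.InvariantSubgroups

open Pool.Agent.Work.MP_369e59_al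

/-- Invariant subgroups: the class of an Ω-invariant subgroup `K` is at most `f (r + c₀)` if `K`
has a normal subgroup `A` with `K / A` generated by `r` elements, where `A` has class at most `c₀`
or is soluble of derived length at most `ℓ` with `solBound (f 2) ℓ ≤ c₀`. Here
`lowerCentralSeries ⊤ c = ⊥` says that the group is nilpotent of class at most `c`. -/
theorem result (Ω : Type*) [Group Ω] (G : Type*) [Group G] [MulDistribMulAction Ω G]
    (W : Set (FreeGroup (ℕ × Ω))) (hG : InVO W G)
    (U : Set MultId) (hU : Sat U (AssocLie (RelFree (proj Ω '' W))))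
    (f : ℕ → ℕ) (hf : ClassBound.{0} U f)
    (hLN : LocNilp (G ⋊[MulDistribMulAction.toMulAut Ω G] Ω))
    (K : Subgroup G) (hK : ∀ ω : Ω, ∀ x ∈ K, ω • x ∈ K)
    (A : Subgroup K) (hAn : A.Normal) (c₀ : ℕ)
    (hA : (⊤ : Subgroup A).lowerCentralSeries c₀ = ⊥ ∨
      ∃ ℓ, derivedSeries A ℓ = ⊥ ∧ solBound (f 2) ℓ ≤ c₀)
    (r : ℕ) (k : Fin r → K) (hk : Subgroup.closure (Set.range k) ⊔ A = ⊤) :
    (⊤ : Subgroup K).lowerCentralSeries (f (r + c₀)) = ⊥ :=
  thmD hG (fun u hu => generic_of_sat hU u hu) hf hLN K hK A (nilSol_of A hA) k hk

end Pool.Agent.Results.MP_369e59_al.InvariantSubgroups
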