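import Pool.Agent.Work.MP_369e59_al.ThmB

/-!
# Operator groups with orbits of bounded length modulo a soluble subgroup

Setting of the problem: `Ω` is an arbitrary group, `W` a set of Ω-words (elements of the free group
on the symbols `x^ω = (x, ω)`), `proj Ω '' W` is the set of group words obtained by replacing all
operators by the identity, `RelFree (proj Ω '' W)` is the countably generated free group of the
variety of groups which these words define, and `AssocLie` is the associated Lie ring.

Hypothesis (H) is `hU` and `hf`: the associated Lie ring satisfies the multilinear identities `U`,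
and every `d`-generator Lie ring satisfying `U` has nilpotency class at most `f d`.

`G` is an Ω-group in `𝔙_W` such that `G ⋊ Ω` is locally nilpotent. We prove: let `A` be an
Ω-invariant normal subgroup of `G`, nilpotent of class at most `c₀` or soluble of derived length at
most `ℓ` with `solBound (f 2) ℓ ≤ c₀`, such that the Ω-orbits on `G / A` are finite of length
dividing `n`. Then `G` lies in a locally nilpotent variety of groups in which every `d`-generator
group has class at most the maximum of `f (d + c₀)` and of the numbers `f (d * n_p + c₀)`, where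
`p` is a prime divisor of `n` and `n_p` is the largest power of `p` dividing `n`.
-/

namespace Pool.Agent.Results.MP_369e59_al.OrbitBound

open Pool.Agent.Work.MP_369e59_al

/-- The maximum of `f (d + c₀)` and of the numbers `f (d * n_p + c₀)`, `p` a prime divisor of `n`
and `n_p` the largest power of `p` dividing `n`. -/
def classBound (f : ℕ → ℕ) (n c₀ d : ℕ) : ℕ :=
  max (f (d + c₀)) (n.primeFactors.sup fun p => f (d * p ^ n.factorization p + c₀))

/-- Orbits of bounded length. Here `lowerCentralSeries ⊤ c = ⊥` says that the group is nilpotent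
of class at most `c`. -/
theorem result.{v} (Ω : Type*) [Group Ω] (G : Type*) [Group G] [MulDistribMulAction Ω G]
    (W : Set (FreeGroup (ℕ × Ω))) (hG : InVO W G)
    (U : Set MultId) (hU : Sat U (AssocLie (RelFree (proj Ω '' W))))
    (f : ℕ → ℕ) (hf : ClassBound.{0} U f)
    (hLN : LocNilp (G ⋊[MulDistribMulAction.toMulAut Ω G] Ω))
    (A : Subgroup G) (hAn : A.Normal) (hAΩ : ∀ ω : Ω, ∀ x ∈ A, ω • x ∈ A) (c₀ : ℕ)
    (hA : (⊤ : Subgroup A).lowerCentralSeries c₀ = ⊥ ∨
      ∃ ℓ, derivedSeries A ℓ = ⊥ ∧ solBound (f 2) ℓ ≤ c₀)
    (n : ℕ) (hn : n ≠ 0)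
    (horb : ∀ g : G, (Set.range fun ω : Ω => (QuotientGroup.mk (ω • g) : G ⧸ A)).ncard ∣ n) :
    ∃ V : Set (FreeGroup ℕ), InV V G ∧
      ∀ (H : Type v) [Group H], InV V H → ∀ (d : ℕ) (h : Fin d → H),
        Subgroup.closure (Set.range h) = ⊤ →
          (⊤ : Subgroup H).lowerCentralSeries (classBound f n c₀ d) = ⊥ := by
  refine ⟨{w : FreeGroup ℕ | ∀ θ : ℕ → G, FreeGroup.lift θ w = 1}, fun w hw θ => hw θ, ?_⟩
  intro H _ hH d h hh
  refine variety (G := G) (classBound f n c₀) ?_ hH d h hh
  intro d x
  refine thmB hG (fun u hu => generic_of_sat hU u hu) hf hLN A hAΩ (c0 := c₀)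
    (nilSol_of A hA) hn horb x ?_
  intro p hp
  unfold classBound
  by_cases hpn : p ∈ n.primeFactors
  · exact (Finset.le_sup (f := fun p => f (d * p ^ n.factorization p + c₀)) hpn).trans
      (le_max_right _ _)
  · have h1 : n.factorization p = 0 := by
      rw [Nat.mem_primeFactors] at hpn
      exact Nat.factorization_eq_zero_of_not_dvd (fun h => hpn ⟨hp, h, hn⟩)
    rw [h1, pow_zero, mul_one]
    exact le_max_left _ _

end Pool.Agent.Results.MP_369e59_al.OrbitBound
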