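import Pool.Agent.Work.MP_369e59_al.TwCon

/-!
# A lower bound for the class: the factor `n` in the bound `f (d n)` is best possible

Setting of the problem: `W` is a set of Ω-words (elements of the free group on the symbols
`x^ω = (x, ω)`), `proj Ω '' W` is the set of group words obtained by replacing all operators by the
identity, `RelFree (proj Ω '' W)` is the countably generated free group of the variety of groups
which these words define, and `AssocLie` is the associated Lie ring. Hypothesis (H) with the
function `f` says that this Lie ring satisfies multilinear identities `U` such that every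
`d`-generator Lie ring satisfying `U` has nilpotency class at most `f d`.

If `Ω` is finite of order `n` and `G ⋊ Ω` is locally nilpotent, then Khukhro's theorem gives the
bound `f (d (n ^ n - 1) / (n - 1))` for the class of the `d`-generator groups in a suitable variety
containing `G`; if `n` is a power of a prime, this can be replaced by `f (d n)`.

Here we prove: let `n = p ^ r` be a power of an odd prime, `r ≥ 1`, and `d ≥ 2`. There are a cyclic
group `Ω` of order `n`, an Ω-group `G`, Ω-words `W` and identities `U` such that `G ∈ 𝔙_W`, (H) holds
with the function `f = classFn (d n)`, that is, `f k = d n - 1` for `k ≤ d n - 3` and `f k = d n` for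
`k > d n - 3`, `G ⋊ Ω` is locally nilpotent, and every variety of groups which contains `G` contains
a `d`-generator group whose class is greater than `f (d n - 3)`.

Hence a bound of the form `f (φ d)` which is valid for all Ω-groups with `Ω` cyclic of order `n`
satisfies `φ d > d n - 3` for all `d ≥ 2`; in particular no function `φ` works for all `n`, and
`f (d n)` cannot be replaced by `f (d n - 3)`.
-/

namespace Pool.Agent.Results.MP_369e59_al.SharpMultiplier

open Pool.Agent.Work.MP_369e59_al

/-- The function with the value `c - 1` at `k ≤ c - 3` and the value `c` at `k > c - 3`. -/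
def classFn (c k : ℕ) : ℕ := if k + 3 ≤ c then c - 1 else c

/-- The factor `n` is best possible. -/
theorem result (p r d : ℕ) (hp : p.Prime) (hp2 : p ≠ 2) (hr : r ≠ 0) (hd : 2 ≤ d) :
    ∃ (G : Type) (_ : Group G) (_ : MulDistribMulAction (Multiplicative (ZMod (p ^ r))) G)
      (W : Set (FreeGroup (ℕ × Multiplicative (ZMod (p ^ r))))) (U : Set MultId),
      InVO W G ∧
      Sat U (AssocLie (RelFree (proj (Multiplicative (ZMod (p ^ r))) '' W))) ∧
      ClassBound.{0} U (classFn (d * p ^ r)) ∧
      LocNilp (G ⋊[MulDistribMulAction.toMulAut (Multiplicative (ZMod (p ^ r))) G]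
        Multiplicative (ZMod (p ^ r))) ∧
      ∀ V : Set (FreeGroup ℕ), InV V G →
        ∃ (H : Type) (_ : Group H) (h : Fin d → H),
          InV V H ∧ Subgroup.closure (Set.range h) = ⊤ ∧
            (⊤ : Subgroup H).lowerCentralSeries (classFn (d * p ^ r) (d * p ^ r - 3)) ≠ ⊥ := by
  have hp' : Fact p.Prime := ⟨hp⟩
  have hp3 : 3 ≤ p := by
    have := hp.two_le
    omega
  have hn3 : 3 ≤ p ^ r := hp3.trans (Nat.le_self_pow hr p)
  have hdn : 6 ≤ d * p ^ r := by
    calc 6 = 2 * 3 := rfl
      _ ≤ d * p ^ r := Nat.mul_le_mul hd hn3
  obtain ⟨G, iG, iA, T, hT, hW, hLN, h, hh⟩ := exists_group p r d hp2 hr hd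
  refine ⟨G, iG, iA, WW T p (d * p ^ r - 1), UU p (d * p ^ r - 1), hW,
    sat_UU T p (d * p ^ r - 1) hT (by omega), ?_, hLN, ?_⟩
  · have e : classFn (d * p ^ r) = ff (d * p ^ r - 1) := by
      funext k
      unfold classFn ff
      split_ifs with h1 h2 h2
      · omega
      · omega
      · omega
      · omega
    rw [e]
    exact classBound_ff p (d * p ^ r - 1) hp hp2
  · intro V hV
    refine ⟨Subgroup.closure (Set.range h), inferInstance,
      fun j => ⟨h j, Subgroup.subset_closure ⟨j, rfl⟩⟩, ?_, ?_, ?_⟩
    · intro v hv θ
      have h1 := hV v hv (fun i => (θ i : G))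
      have h2 : (Subgroup.closure (Set.range h)).subtype (FreeGroup.lift θ v) =
          FreeGroup.lift (fun i => (θ i : G)) v := by
        have h3 : (Subgroup.closure (Set.range h)).subtype.comp (FreeGroup.lift θ) =
            FreeGroup.lift (fun i => (θ i : G)) := by
          apply FreeGroup.ext_hom
          intro i
          simp
        exact DFunLike.congr_fun h3 v
      apply Subtype.ext
      rw [Subgroup.coe_one, ← h1, ← h2]
      rfl
    · have h1 := Subgroup.closure_closure_coe_preimage (k := Set.range h)
      rw [← h1]
      congr 1
      ext x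
      constructor
      · rintro ⟨j, rfl⟩
        exact ⟨j, rfl⟩
      · rintro ⟨j, hj⟩
        exact ⟨j, Subtype.ext hj⟩
    · have e : classFn (d * p ^ r) (d * p ^ r - 3) = d * p ^ r - 1 := by
        unfold classFn
        rw [if_pos (by omega)]
      rw [e]
      exact hh

end Pool.Agent.Results.MP_369e59_al.SharpMultiplier
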